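import Pool.Agent.helper73.AD.GW1
import Pool.Agent.helper73.AD.GWL

/-!
WV1: smoothness of the twist deformation, of the lengths and of the axes (project ad, Wolpert
part).
-/

open scoped MatrixGroups LinearAlgebra.Projectivization BigOperators
open Matrix UpperHalfPlane
open Pool.Agent.helper73.AD (PS Word Arc sg Cone)

namespace AdSBend

noncomputable section

open LeafSystem

theorem WV_trc (g : SL(2, ℝ)) : trc g = g.1.trace := by
  simp [trc, Matrix.trace_fin_two]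

theorem WV_trc_neg (g : SL(2, ℝ)) : trc (-g) = -trc g := by
  simp [trc]; ring

theorem WV_trc_conj (g h : SL(2, ℝ)) : trc (g * h * g⁻¹) = trc h := by
  rw [WV_trc, WV_trc]
  have h5 : ((g * h * g⁻¹ : SL(2, ℝ))).1 = g.1 * h.1 * (g⁻¹).1 := by simp
  rw [h5, Matrix.trace_mul_comm, ← mul_assoc]
  have h6 : (g⁻¹).1 * g.1 = 1 := by
    rw [← Matrix.SpecialLinearGroup.coe_mul, inv_mul_cancel]; rfl
  rw [h6, one_mul]

/-- the data of a twist deformation along `S'` -/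
theorem WV_hyp (hTF : TF1_stmt) (hTW : TW2_stmt) (hPN : PN3_stmt) (Γ : Subgroup SL(2, ℝ))
    (hΓ : IsClosedSurfaceGroup Γ) {J K : Type} (X : Setup Γ J K)
    (f : Bd ≃ Bd) (r : SL(2, ℝ) → SL(2, ℝ)) (z₀ : ℍ) (A : (K → ℝ) → ℍ → SL(2, ℝ))
    (hD : X.Def f r z₀ A) :
    IsPRep Γ r ∧ (∀ p ∈ X.S'.L, 2 < |trc (r (gen Γ p))|) ∧
    ∀ T, ∀ p ∈ X.S'.L, 2 < |trc (A T (gen Γ p • z₀) * r (gen Γ p))| ∧
      ∀ w, X.S'.Near p w → PEq (A T (gen Γ p • z₀) * r (gen Γ p))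
        (A T w * r (gen Γ p) * (A T w)⁻¹) := by
  obtain ⟨hrep, htr, -⟩ := hTF Γ hΓ X.S' f r hD.conj
  refine ⟨hrep, htr, fun T p hp => ?_⟩
  have h1 := (hTW Γ hΓ X.S' r (fun p => T (X.D'.cls p)) z₀ hrep htr
    (fun γ hγ p hp => by simp only [X.D'.cls_ga γ hγ p hp])
    (fun p hp => by simp only [X.D'.cls_sw p hp]) hD.off).2 (A T) (hD.twist T)
  refine ⟨?_, fun w hw => h1.2.2.1 p hp w hw⟩
  obtain ⟨z, hz⟩ := (hPN Γ hΓ X.S' p hp).1
  have h2 := h1.2.2.1 p hp z hz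
  rcases h2 with h | h
  · rw [h, WV_trc_conj]; exact htr p hp
  · rw [h, WV_trc_neg, WV_trc_conj, abs_neg]; exact htr p hp

/-- the axes of the leaves of `S'` for the twisted representation -/
theorem WV_axis (hTW1 : TW1_stmt) (hTF : TF1_stmt) (hTW : TW2_stmt) (hPN : PN3_stmt)
    (Γ : Subgroup SL(2, ℝ)) (hΓ : IsClosedSurfaceGroup Γ) {J K : Type} (X : Setup Γ J K)
    (f : Bd ≃ Bd) (r : SL(2, ℝ) → SL(2, ℝ)) (z₀ : ℍ) (A : (K → ℝ) → ℍ → SL(2, ℝ))
    (hD : X.Def f r z₀ A) (T : K → ℝ) (p : Bd × Bd) (hp : p ∈ X.S'.L) (w : ℍ)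
    (hw : X.S'.Near p w) :
    axis (A T (gen Γ p • z₀) * r (gen Γ p)) =
      (A T w).1 * axis (r (gen Γ p)) * ((A T w)⁻¹).1 := by
  obtain ⟨-, htr, h⟩ := WV_hyp hTF hTW hPN Γ hΓ X f r z₀ A hD
  have h1 := (h T p hp).2 w hw
  have h2 := (hTW1.2.1 (r (gen Γ p)) (A T w) 0 (htr p hp)).2
  have h3 : 2 < |trc (A T w * r (gen Γ p) * (A T w)⁻¹)| := by
    rw [WV_trc_conj]; exact htr p hp
  rcases h1 with h1 | h1
  · rw [h1, h2]
  · rw [h1, (hTW1.2.2.1 _ 0 0 h3).2.2.2.1, h2]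

/-- the conclusions of TW3 for the deformation, with the axes of the twisted representation -/
theorem WV_tw3 (hTW1 : TW1_stmt) (hTF : TF1_stmt) (hTW : TW2_stmt) (hTW3 : TW3_stmt)
    (hPN : PN3_stmt)
    (Γ : Subgroup SL(2, ℝ)) (hΓ : IsClosedSurfaceGroup Γ) {J K : Type} [Fintype K]
    [DecidableEq K] (X : Setup Γ J K)
    (f : Bd ≃ Bd) (r : SL(2, ℝ) → SL(2, ℝ)) (z₀ : ℍ) (A : (K → ℝ) → ℍ → SL(2, ℝ))
    (hD : X.Def f r z₀ A) (z : ℍ) (hz : X.S'.OffPt z) :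
      (∀ i j, ContDiff ℝ 3 (fun T : K → ℝ => (A T z).1 i j)) ∧
      {p : Bd × Bd | p ∈ X.S'.L ∧ FrontPt p z₀ ∧ BehindPt p z}.Finite ∧
      (∀ T k i j, HasDerivAt (fun s : ℝ => (A (T + s • Pi.single k 1) z).1 i j)
        (((∑ᶠ p ∈ {p : Bd × Bd | p ∈ X.S'.L ∧ FrontPt p z₀ ∧ BehindPt p z ∧ X.D'.cls p = k},
          (-(1 / 2) : ℝ) • axis (A T (gen Γ p • z₀) * r (gen Γ p))) * (A T z).1) i j) 0) := by
  obtain ⟨hrep, htr, h⟩ := WV_hyp hTF hTW hPN Γ hΓ X f r z₀ A hD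
  have h3 := hTW3 Γ hΓ X.S' K X.D'.cls r z₀ A
    (fun T p => axis (A T (gen Γ p • z₀) * r (gen Γ p))) hrep htr X.D'.cls_ga X.D'.cls_sw hD.off
    hD.twist (fun T p hp w hw => WV_axis hTW1 hTF hTW hPN Γ hΓ X f r z₀ A hD T p hp w hw) z hz
  exact ⟨h3.1, h3.2.1, h3.2.2.1⟩

/-- smoothness of the length and of the axis of a smooth family of matrices -/
theorem WV_smooth {E : Type*} [NormedAddCommGroup E] [NormedSpace ℝ E] {n : ℕ∞}
    (g : E → SL(2, ℝ)) (hg : ∀ i j, ContDiff ℝ n (fun T => (g T).1 i j))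
    (h2 : ∀ T, 2 < |trc (g T)|) :
    ContDiff ℝ n (fun T => len (g T)) ∧ ∀ i j, ContDiff ℝ n (fun T => axis (g T) i j) := by
  have ht : ContDiff ℝ n (fun T => trc (g T)) := (hg 0 0).add (hg 1 1)
  have hne : ∀ T, trc (g T) ≠ 0 := fun T h => by
    have := h2 T; rw [h, abs_zero] at this; linarith
  have ha : ContDiff ℝ n (fun T => |trc (g T)|) := by
    rw [contDiff_iff_contDiffAt]
    intro T
    exact (contDiffAt_abs (hne T)).comp T ht.contDiffAt
  have hs : ContDiff ℝ n (fun T => Real.sqrt (|trc (g T)| ^ 2 - 4)) := by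
    refine ContDiff.sqrt ((ha.pow 2).sub contDiff_const) fun T => ?_
    have := h2 T
    nlinarith
  have hl : ContDiff ℝ n (fun T => len (g T)) := by
    unfold len
    refine contDiff_const.mul (ContDiff.log ((ha.add hs).div_const 2) fun T => ?_)
    have := h2 T
    have := Real.sqrt_nonneg (|trc (g T)| ^ 2 - 4)
    positivity
  refine ⟨hl, fun i j => ?_⟩
  have hlpos : ∀ T, 0 < len (g T) := by
    intro T
    unfold len
    have h := h2 T
    have h' := Real.sqrt_nonneg (|trc (g T)| ^ 2 - 4)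
    have : 0 < Real.log ((|trc (g T)| + Real.sqrt (|trc (g T)| ^ 2 - 4)) / 2) := by
      apply Real.log_pos
      linarith
    linarith
  have hp : ContDiff ℝ n (fun T => (pos (g T)).1 i j) := by
    have h1 : (fun T => (pos (g T)).1 i j) =
        fun T => |trc (g T)| / trc (g T) * (g T).1 i j := by
      funext T
      unfold pos
      split_ifs with h
      · rw [abs_of_nonneg h, div_self (hne T), one_mul]
      · push Not at h
        rw [abs_of_neg h, neg_div, div_self (hne T)]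
        simp
    rw [h1]
    exact (ha.div ht hne).mul (hg i j)
  have hsh : ContDiff ℝ n (fun T => (Real.sinh (len (g T) / 2))⁻¹) := by
    refine ContDiff.inv (Real.contDiff_sinh.comp (hl.div_const 2)) fun T => ?_
    have := hlpos T
    exact (Real.sinh_pos_iff.mpr (by linarith)).ne'
  have h3 : (fun T => axis (g T) i j) = fun T => (Real.sinh (len (g T) / 2))⁻¹ *
      ((pos (g T)).1 i j - |trc (g T)| / 2 * (1 : M2) i j) := by
    funext T
    simp [axis]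
  rw [h3]
  exact hsh.mul (hp.sub ((ha.div_const 2).mul contDiff_const))

/-- WV1: smoothness of the representation, the lengths and the axes -/
theorem WV1 (hTW1 : TW1_stmt) (hTF : TF1_stmt) (hTW : TW2_stmt) (hTW3 : TW3_stmt)
    (hPN : PN3_stmt) (hPN5 : PN5_stmt) : WV1_stmt := by
  intro Γ hΓ J K _ _ X f r z₀ A hD γ hγ
  have hz : X.S'.OffPt (γ • z₀) := (hPN5 Γ X.S').2.2.1 γ hγ z₀ hD.off
  have h := (WV_tw3 hTW1 hTF hTW hTW3 hPN Γ hΓ X f r z₀ A hD (γ • z₀) hz).1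
  have hC : ∀ i j, ContDiff ℝ 2 (fun T : K → ℝ => (A T (γ • z₀) * r γ).1 i j) := by
    intro i j
    have h1 : (fun T : K → ℝ => (A T (γ • z₀) * r γ).1 i j) =
        fun T => (A T (γ • z₀)).1 i 0 * (r γ).1 0 j + (A T (γ • z₀)).1 i 1 * (r γ).1 1 j := by
      funext T
      simp [Matrix.mul_apply, Fin.sum_univ_two]
    rw [h1]
    exact (((h i 0).of_le (by norm_num)).mul contDiff_const).add
      (((h i 1).of_le (by norm_num)).mul contDiff_const)
  exact ⟨hC, fun h2 => WV_smooth (n := 2) _ hC h2⟩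

end

end AdSBend
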