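import Pool.Agent.helper68.AW.WV1

/-!
WV2: derivative of the twist deformation and of the lengths (project ad, Wolpert part).
-/

open scoped MatrixGroups LinearAlgebra.Projectivization BigOperators
open Matrix UpperHalfPlane
open Pool.Agent.helper73.AD (PS Word Arc sg Cone)

namespace AdSBend

noncomputable section

open LeafSystem

theorem WV_trace_finsum {ι : Type*} (s : Set ι) (hs : s.Finite) (F : ι → M2)
    (h : ∀ p ∈ s, (F p).trace = 0) : (∑ᶠ p ∈ s, F p).trace = 0 := by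
  rw [finsum_mem_eq_finite_toFinset_sum _ hs, Matrix.trace_sum]
  exact Finset.sum_eq_zero fun p hp => h p (hs.mem_toFinset.mp hp)

theorem WV_pos_smul (g : SL(2, ℝ)) : trc g • g.1 = |trc g| • (pos g).1 := by
  unfold pos
  split_ifs with h
  · rw [abs_of_nonneg h]
  · push Not at h
    rw [abs_of_neg h]
    have : (-g).1 = -g.1 := rfl
    rw [this]; simp

/-- derivative of the length along a curve with velocity `-(1/2) v`, `v` traceless -/
theorem WV_len_deriv (hTW1 : TW1_stmt) (φ : ℝ → SL(2, ℝ)) (v : M2) (hv : v.trace = 0)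
    (hφ : HasD (fun s => (φ s).1) ((-(1 / 2) : ℝ) • (v * (φ 0).1))) (h2 : ∀ s, 2 < |trc (φ s)|)
    (hd : DifferentiableAt ℝ (fun s => len (φ s)) 0) :
    HasDerivAt (fun s => len (φ s)) (-ip v (axis (φ 0))) 0 := by
  obtain ⟨L', hL'⟩ : ∃ L', HasDerivAt (fun s => len (φ s)) L' 0 := ⟨_, hd.hasDerivAt⟩
  have ht : HasDerivAt (fun s => trc (φ s)) ((-(1 / 2) : ℝ) • (v * (φ 0).1)).trace 0 := by
    have := hφ.trace
    have h1 : (fun s => ((φ s).1).trace) = fun s => trc (φ s) := by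
      funext s; rw [WV_trc]
    rwa [h1] at this
  have hsq : ∀ s, trc (φ s) ^ 2 = 4 * Real.cosh (len (φ s) / 2) ^ 2 := by
    intro s
    have h := (hTW1.2.2.2 (φ s) (h2 s)).2.2.2.2
    rw [← sq_abs, h]; ring
  have hA := ht.pow 2
  have hB := (((hL'.div_const 2).cosh).pow 2).const_mul 4
  have hE : (fun s => trc (φ s) ^ 2) = fun s => 4 * Real.cosh (len (φ s) / 2) ^ 2 := by
    funext s; exact hsq s
  have hA' : HasDerivAt (fun s => trc (φ s) ^ 2)
      (2 * trc (φ 0) * ((-(1 / 2) : ℝ) • (v * (φ 0).1)).trace) 0 := by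
    refine hA.congr_deriv ?_
    norm_num
  have hB' : HasDerivAt (fun s => trc (φ s) ^ 2)
      (4 * (2 * Real.cosh (len (φ 0) / 2) * (Real.sinh (len (φ 0) / 2) * (L' / 2)))) 0 := by
    rw [hE]
    refine hB.congr_deriv ?_
    norm_num
  have hu := hA'.unique hB'
  obtain ⟨hp1, -, -, hlen, habs⟩ := hTW1.2.2.2 (φ 0) (h2 0)
  have hsinh : 0 < Real.sinh (len (φ 0) / 2) := Real.sinh_pos_iff.mpr (by linarith)
  have hcosh : 0 < Real.cosh (len (φ 0) / 2) := Real.cosh_pos _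
  have hkey : trc (φ 0) * (v * (φ 0).1).trace =
      2 * Real.cosh (len (φ 0) / 2) * (Real.sinh (len (φ 0) / 2) * (2 * ip v (axis (φ 0)))) := by
    have h1 : trc (φ 0) * (v * (φ 0).1).trace = (v * (trc (φ 0) • (φ 0).1)).trace := by
      rw [Matrix.mul_smul, Matrix.trace_smul, smul_eq_mul]
    rw [h1, WV_pos_smul, hp1, habs]
    simp only [Matrix.mul_smul, Matrix.mul_add, Matrix.trace_smul, Matrix.trace_add, mul_one, hv,
      smul_eq_mul, ip]
    ring
  have hLe : L' = -ip v (axis (φ 0)) := by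
    have h3 : 2 * trc (φ 0) * ((-(1 / 2) : ℝ) • (v * (φ 0).1)).trace =
        -(trc (φ 0) * (v * (φ 0).1).trace) := by
      rw [Matrix.trace_smul, smul_eq_mul]; ring
    rw [h3, hkey] at hu
    have h4 : Real.cosh (len (φ 0) / 2) * Real.sinh (len (φ 0) / 2) *
        (L' + ip v (axis (φ 0))) = 0 := by linarith
    have h5 : L' + ip v (axis (φ 0)) = 0 := by
      rcases mul_eq_zero.mp h4 with h | h
      · exact absurd h (mul_pos hcosh hsinh).ne'
      · exact h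
    linarith
  rw [← hLe]; exact hL'

/-- WV2: derivative of the representation and of the lengths in the direction `k` -/
theorem WV2 (hTW1 : TW1_stmt) (hTF : TF1_stmt) (hTW : TW2_stmt) (hTW3 : TW3_stmt)
    (hPN : PN3_stmt) (hPN5 : PN5_stmt) : WV2_stmt := by
  intro Γ hΓ J K _ _ X f r z₀ A hD T k
  have hyp := (WV_hyp hTF hTW hPN Γ hΓ X f r z₀ A hD).2.2
  have hfin : ∀ z, X.S'.OffPt z →
      {p : Bd × Bd | p ∈ X.S'.L ∧ FrontPt p z₀ ∧ BehindPt p z ∧ X.D'.cls p = k}.Finite := by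
    intro z hz
    refine ((WV_tw3 hTW1 hTF hTW hTW3 hPN Γ hΓ X f r z₀ A hD z hz).2.1).subset ?_
    rintro p ⟨h1, h2, h3, -⟩
    exact ⟨h1, h2, h3⟩
  have hfirst : ∀ γ ∈ Γ, HasD (fun s : ℝ => (A (T + s • Pi.single k 1) (γ • z₀) * r γ).1)
      ((-(1 / 2) : ℝ) • (flux Γ X.S' X.D'.cls (fun γ => A T (γ • z₀) * r γ) k z₀ (γ • z₀) *
        (A T (γ • z₀) * r γ).1)) := by
    intro γ hγ
    have hz : X.S'.OffPt (γ • z₀) := (hPN5 Γ X.S').2.2.1 γ hγ z₀ hD.off
    have h3 := (WV_tw3 hTW1 hTF hTW hTW3 hPN Γ hΓ X f r z₀ A hD (γ • z₀) hz).2.2 T k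
    have hsum : (∑ᶠ p ∈ {p : Bd × Bd | p ∈ X.S'.L ∧ FrontPt p z₀ ∧ BehindPt p (γ • z₀) ∧
          X.D'.cls p = k}, (-(1 / 2) : ℝ) • axis (A T (gen Γ p • z₀) * r (gen Γ p))) =
        (-(1 / 2) : ℝ) • flux Γ X.S' X.D'.cls (fun γ => A T (γ • z₀) * r γ) k z₀ (γ • z₀) := by
      unfold flux
      rw [finsum_mem_eq_finite_toFinset_sum _ (hfin _ hz),
        finsum_mem_eq_finite_toFinset_sum _ (hfin _ hz), Finset.smul_sum]
      rfl
    have hA : HasD (fun s : ℝ => (A (T + s • Pi.single k 1) (γ • z₀)).1)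
        (((-(1 / 2) : ℝ) • flux Γ X.S' X.D'.cls (fun γ => A T (γ • z₀) * r γ) k z₀ (γ • z₀)) *
          (A T (γ • z₀)).1) := by
      intro i j
      rw [← hsum]
      exact h3 i j
    have hM := hA.mul (HasD.const (r γ).1)
    have hEq : (((-(1 / 2) : ℝ) • flux Γ X.S' X.D'.cls (fun γ => A T (γ • z₀) * r γ) k z₀
          (γ • z₀)) * (A T (γ • z₀)).1) * (r γ).1 +
          (A (T + (0 : ℝ) • Pi.single k 1) (γ • z₀)).1 * 0 =
        (-(1 / 2) : ℝ) • (flux Γ X.S' X.D'.cls (fun γ => A T (γ • z₀) * r γ) k z₀ (γ • z₀) *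
        (A T (γ • z₀) * r γ).1) := by
      rw [Matrix.mul_zero, add_zero, Matrix.smul_mul, Matrix.smul_mul, Matrix.mul_assoc,
        Matrix.SpecialLinearGroup.coe_mul]
    rw [← hEq]
    exact hM
  refine ⟨hfirst, fun γ hγ h2 => ?_⟩
  have hz : X.S'.OffPt (γ • z₀) := (hPN5 Γ X.S').2.2.1 γ hγ z₀ hD.off
  have h0 : T + (0 : ℝ) • (Pi.single k 1 : K → ℝ) = T := by simp
  have htr : (flux Γ X.S' X.D'.cls (fun γ => A T (γ • z₀) * r γ) k z₀ (γ • z₀)).trace = 0 := by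
    unfold flux
    refine WV_trace_finsum _ (hfin _ hz) _ ?_
    rintro p ⟨hp, -, -, -⟩
    exact (hTW1.2.2.2 _ (hyp T p hp).1).2.1
  have hφ : HasD (fun s => (A (T + s • Pi.single k 1) (γ • z₀) * r γ).1)
      ((-(1 / 2) : ℝ) • (flux Γ X.S' X.D'.cls (fun γ => A T (γ • z₀) * r γ) k z₀ (γ • z₀) *
        ((fun s : ℝ => A (T + s • Pi.single k 1) (γ • z₀) * r γ) 0).1)) := by
    simp only [h0]
    exact hfirst γ hγ
  have hd : DifferentiableAt ℝ
      (fun s : ℝ => len (A (T + s • Pi.single k 1) (γ • z₀) * r γ)) 0 := by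
    have h3 := ((WV1 hTW1 hTF hTW hTW3 hPN hPN5 Γ hΓ J K X f r z₀ A hD γ hγ).2 h2).1
    have h4 : DifferentiableAt ℝ (fun T : K → ℝ => len (A T (γ • z₀) * r γ))
        (T + (0 : ℝ) • (Pi.single k 1 : K → ℝ)) := (h3.differentiable (by norm_num)) _
    have h5 : DifferentiableAt ℝ (fun s : ℝ => T + s • (Pi.single k 1 : K → ℝ)) 0 := by
      fun_prop
    have h6 := h4.hasFDerivAt.comp_hasDerivAt 0 h5.hasDerivAt
    exact h6.differentiableAt
  have := WV_len_deriv hTW1 (fun s : ℝ => A (T + s • Pi.single k 1) (γ • z₀) * r γ) _ htr hφ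
    (fun s => h2 _) hd
  simpa only [h0] using this

end

end AdSBend
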