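import Pool.Agent.helper73.AD.GW1
import Pool.Agent.helper73.AD.GWL

/-!
WV6: the twist coordinate as an explicit function of the unit vectors (project ad, Wolpert part).
-/

open scoped MatrixGroups LinearAlgebra.Projectivization BigOperators
open Matrix UpperHalfPlane
open Pool.Agent.helper73.AD (PS Word Arc sg Cone)

namespace AdSBend

noncomputable section

open LeafSystem

/-- a seam is a side of a hexagon, in the first position -/
theorem WV_seam_hex (hHX1 : HX1_stmt) (Γ : Subgroup SL(2, ℝ)) (hΓ : IsClosedSurfaceGroup Γ)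
    (S : LeafSystem Γ) (p u : Bd × Bd) (h : S.Seam p u) : ∃ x, S.Hex p u x := by
  obtain ⟨x, hx | hx⟩ := h
  · exact ⟨x, hx⟩
  · obtain ⟨h1, h2, -⟩ := hHX1 Γ hΓ S
    exact ⟨_, h2 _ _ _ (h1 _ _ _ hx)⟩

theorem WV_Dm_inv (t : ℝ) : ((Dm t)⁻¹).1 = !![Real.exp (-(t / 2)), 0; 0, Real.exp (t / 2)] := by
  rw [Matrix.SpecialLinearGroup.coe_inv]
  simp [Dm, Matrix.adjugate_fin_two_of]

theorem WV_Rm_inv : (Rm⁻¹).1 = !![0, -1; 1, 0] := by
  rw [Matrix.SpecialLinearGroup.coe_inv]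
  simp [Rm, Matrix.adjugate_fin_two_of]

theorem WV_cj_RD (t : ℝ) : cj Rm (cj (Dm t) eM) =
    -(Real.cosh t • eM) + Real.sinh t • (hM * eM) := by
  have h1 : Real.exp (t / 2) * Real.exp (t / 2) = Real.exp t := by
    rw [← Real.exp_add]; congr 1; ring
  have h2 : Real.exp (-(t / 2)) * Real.exp (-(t / 2)) = Real.exp (-t) := by
    rw [← Real.exp_add]; congr 1; ring
  unfold cj
  rw [WV_Dm_inv, WV_Rm_inv]
  ext i j
  fin_cases i <;> fin_cases j <;>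
    simp [Dm, Rm, eM, hM, Real.cosh_eq, Real.sinh_eq, h1, h2] <;> ring

theorem WV_ip_calc (a s : M2) (ha : a.trace = 0) (ha2 : a * a = 1) (hs2 : s * s = 1)
    (has : a * s = -(s * a)) (t : ℝ) :
    ip (-(Real.cosh t • s) + Real.sinh t • (a * s)) (a * s) = -Real.sinh t := by
  have h1 : (s * (a * s)).trace = 0 := by
    rw [Matrix.trace_mul_comm, Matrix.mul_assoc, hs2, Matrix.mul_one, ha]
  have h2 : (a * s * (a * s)) = -1 := by
    have : a * s * (a * s) = -(s * a) * (a * s) := by rw [← has]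
    rw [this, Matrix.neg_mul, Matrix.mul_assoc, ← Matrix.mul_assoc a a s, ha2, Matrix.one_mul, hs2]
  unfold ip
  rw [Matrix.add_mul, Matrix.neg_mul, Matrix.smul_mul, Matrix.smul_mul, h2, Matrix.trace_add,
    Matrix.trace_neg, Matrix.trace_smul, Matrix.trace_smul, h1, Matrix.trace_neg]
  simp
  ring

/-- WV6: the twist coordinate as an explicit function of the unit vectors -/
theorem WV6 (hHX1 : HX1_stmt) (hFB1 : FB1_stmt) (hWA0 : WA0_stmt) (hWA1 : WA1_stmt) :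
    WV6_stmt := by
  intro Γ hΓ S J D r z hr hz j
  obtain ⟨-, hmul, -, -, halg, hsmul, -, -, hPE⟩ := hWA0
  obtain ⟨hB1, -⟩ := hFB1 Γ hΓ S r hr
  obtain ⟨hA1, hA2⟩ := hWA1 Γ hΓ S r hr
  obtain ⟨F, hF⟩ := hB1 _ _ (D.seamU j)
  obtain ⟨G, hG⟩ := hB1 _ _ (D.seamV j)
  obtain ⟨x, hx⟩ := WV_seam_hex hHX1 Γ hΓ S _ _ (D.seamU j)
  obtain ⟨y, hy⟩ := WV_seam_hex hHX1 Γ hΓ S _ _ (D.seamV j)
  have hFx := (hA2 _ _ _ hx).2.2.2.2.2.2.2.2.2.2.2 F hF
  have hy2 := hA2 _ _ _ hy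
  have hGy := hy2.2.2.2.2.2.2.2.2.2.2.2 G hG
  have hmem : sw (D.P j) ∈ S.L := S.swap _ (D.memP j)
  have ha := hA1 _ hmem
  have key : sV Γ r (D.P j) (D.U j) = -(Real.cosh (z.2 j) • sV Γ r (sw (D.P j)) (D.V j)) +
      Real.sinh (z.2 j) • (aV Γ r (sw (D.P j)) * sV Γ r (sw (D.P j)) (D.V j)) := by
    rw [hFx.2, hGy.1, hGy.2, hPE _ _ _ (hz.2 j F G hF hG), hmul, hmul, WV_cj_RD]
    have h1 : ∀ X : M2, cj G (-X) = -cj G X := by
      intro X
      have := hsmul G (-1) X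
      simpa using this
    rw [(halg _ _ _).1, h1, hsmul, hsmul, (halg _ _ _).2.1]
  refine ⟨?_, key⟩
  unfold twC
  rw [key, WV_ip_calc _ _ ha.1 ha.2.1 hy2.2.2.2.1 hy2.2.2.2.2.2.1, neg_neg, Real.arsinh_sinh]

end

end AdSBend
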